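import Pool.Agent.WIR.StmtsC

/-!
# WIR, row AWR: the first head (author helper81)
-/

set_option autoImplicit false

namespace Pool.Agent.WIR.H81

theorem awr : AwrStmt := by
  intro N S ξ n i l
  induction n generalizing l with
  | zero =>
    rw [show l + 0 = l from rfl, Finset.Icc_eq_empty (by omega), Finset.sum_empty, pow_zero,
      one_mul, zero_add, Aw]
  | succ n ih =>
    rw [Aw, ih (l + 1), Finset.Icc_eq_cons_Ioc (by omega : l + 1 ≤ l + (n + 1)), Finset.sum_cons,
      ← Finset.Icc_add_one_left_eq_Ioc, show l + (n + 1) = l + 1 + n by omega,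
      show l + 1 - l = 1 by omega, show l + 1 + n - (l + 1) = n by omega, pow_one]
    have h1 : ∀ x ∈ Finset.Icc (l + 1 + 1) (l + 1 + n), (1 / 2 : ℂ) ^ (x - l) *
        (ZMod.stdAddChar (-(ξ * 3 ^ i * (2 : ZMod (3 ^ N))⁻¹ ^ x)) *
          Aw N S ξ (l + 1 + n - x) (i + 1) x) = (1 / 2 : ℂ) * ((1 / 2 : ℂ) ^ (x - (l + 1)) *
        (ZMod.stdAddChar (-(ξ * 3 ^ i * (2 : ZMod (3 ^ N))⁻¹ ^ x)) *
          Aw N S ξ (l + 1 + n - x) (i + 1) x)) := by
      intro x hx
      rw [Finset.mem_Icc] at hx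
      rw [show x - l = (x - (l + 1)) + 1 by omega, pow_succ]
      ring
    rw [Finset.sum_congr rfl h1, ← Finset.mul_sum, pow_succ]
    ring

end Pool.Agent.WIR.H81
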