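import Pool.Agent.WIR.StmtsE

/-!
# WIR, row FIN: the final theorem (author helper81)
-/

set_option autoImplicit false

open scoped ENNReal Topology NNReal
open Filter MeasureTheory

namespace Pool.Agent.WIR.H81

theorem fin (hWLM : WlmStmt) (hPOS : PosStmt) (hAEC : AecStmt) (hSBR : SbrStmt) (hUTS : UtsStmt)
    (hINT : IntStmt) (hSCH : SchStmt) (hTYB : TybStmt) : FinStmt := by
  obtain ⟨w₀, hw₀m, hw₀n, hw₀c, hw₀i⟩ := hWLM
  have hpos := hPOS w₀ hw₀m hw₀n hw₀c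
  have haec := hAEC w₀ hw₀n hw₀c
  obtain ⟨hsb, hsl⟩ := hSBR
  obtain ⟨hUm, hUmu, hUc, _⟩ := hUTS
  obtain ⟨C, hC⟩ := hTYB
  -- the constants `S n`
  have hS0 : ∀ n : ℕ, 1 ≤ n → ENNReal.ofReal (∑' l, en n l) ≠ 0 := by
    intro n hn
    have h1 : (0 : ℝ) < 2 ^ n / (14 * ((n : ℝ) + 1)) := by positivity
    exact (ENNReal.ofReal_pos.2 (lt_of_lt_of_le h1 (hC n hn).2.1)).ne'
  have hStop : Tendsto (fun n => ENNReal.ofReal (∑' l, en n l)) atTop (𝓝 ⊤) := by
    rw [ENNReal.tendsto_ofReal_nhds_top]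
    have h1 : Tendsto (fun n : ℕ => (2 : ℝ) ^ n / (14 * ((n : ℝ) + 1))) atTop atTop := by
      have h2 : Tendsto (fun n : ℕ => ((n : ℝ) + 1) / (2 : ℝ) ^ n) atTop (𝓝[>] 0) := by
        rw [tendsto_nhdsWithin_iff]
        constructor
        · have h3 := tendsto_pow_const_div_const_pow_of_one_lt 1 (by norm_num : (1 : ℝ) < 2)
          have h4 : Tendsto (fun n : ℕ => (1 : ℝ) / (2 : ℝ) ^ n) atTop (𝓝 0) := by
            have := tendsto_pow_const_div_const_pow_of_one_lt 0 (by norm_num : (1 : ℝ) < 2)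
            simpa using this
          have h5 := h3.add h4
          rw [add_zero] at h5
          refine h5.congr fun n => ?_
          rw [pow_one]
          ring
        · exact Eventually.of_forall fun n => by
            show (0 : ℝ) < ((n : ℝ) + 1) / (2 : ℝ) ^ n
            positivity
      have h6 := (tendsto_inv_nhdsGT_zero.comp h2).const_mul_atTop
        (by norm_num : (0 : ℝ) < 14⁻¹)
      refine h6.congr fun n => ?_
      simp only [Function.comp_apply]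
      rw [inv_div]
      field_simp
    exact tendsto_atTop_mono' _ ((eventually_ge_atTop 1).mono fun n hn => (hC n hn).2.1) h1
  -- the limit
  have hlim : ∀ᵐ x ∂μ3, Tendsto (fun n => sP n x / sbar n) atTop
      (𝓝 (2 / 3 * ENNReal.ofReal (w₀ x))) := by
    filter_upwards [haec] with x hx
    have h1 := ENNReal.Tendsto.mul hx (Or.inr (by
      exact (ENNReal.div_lt_top (by norm_num) (by norm_num)).ne : (2 / 3 : ℝ≥0∞) ≠ ⊤)) hsl
      (Or.inr ENNReal.ofReal_ne_top)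
    rw [mul_comm (2 / 3 : ℝ≥0∞)]
    refine h1.congr' ((eventually_ge_atTop 1).mono fun n hn => ?_)
    show sP n x / ENNReal.ofReal (∑' l, en n l) * (ENNReal.ofReal (∑' l, en n l) / sbar n) =
      sP n x / sbar n
    rw [div_eq_mul_inv, div_eq_mul_inv, div_eq_mul_inv, mul_assoc, ← mul_assoc _ _ (sbar n)⁻¹,
      ENNReal.inv_mul_cancel (hS0 n hn) ENNReal.ofReal_ne_top, one_mul]
  -- `w₀ = 0` off the units
  have hoff : ∀ᵐ x ∂μ3, x ∈ U3ᶜ → ENNReal.ofReal (w₀ x) = 0 := by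
    filter_upwards [haec] with x hx hxU
    have h1 : Tendsto (fun n => sP n x / ENNReal.ofReal (∑' l, en n l)) atTop (𝓝 0) := by
      have h2 : (fun n => sP n x / ENNReal.ofReal (∑' l, en n l)) =
          fun n => (ENNReal.ofReal (∑' l, en n l))⁻¹ := by
        funext n
        rw [hUc x hxU n, one_div]
      rw [h2, ← ENNReal.inv_top]
      exact tendsto_inv_iff.2 hStop
    exact tendsto_nhds_unique hx h1
  have hI0 : ∫⁻ x in U3, ENNReal.ofReal (w₀ x) ∂μ3 = 1 := by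
    have h1 := lintegral_add_compl (μ := μ3) (fun x => ENNReal.ofReal (w₀ x)) hUm
    have h2 : ∫⁻ x in U3ᶜ, ENNReal.ofReal (w₀ x) ∂μ3 = 0 := by
      have h3 : ∫⁻ x in U3ᶜ, ENNReal.ofReal (w₀ x) ∂μ3 = ∫⁻ x in U3ᶜ, 0 ∂μ3 :=
        setLIntegral_congr_fun_ae hUm.compl hoff
      rw [h3, lintegral_zero]
    rw [h2, add_zero, hw₀i] at h1
    exact h1
  have h23 : (2 / 3 : ℝ≥0∞) ≠ 0 := by
    rw [ENNReal.div_ne_zero]
    exact ⟨by norm_num, by norm_num⟩
  have h23t : (2 / 3 : ℝ≥0∞) ≠ ⊤ := (ENNReal.div_lt_top (by norm_num) (by norm_num)).ne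
  have hIw : ∫⁻ x in U3, 2 / 3 * ENNReal.ofReal (w₀ x) ∂μ3 = 2 / 3 := by
    rw [lintegral_const_mul _ hw₀m.ennreal_ofReal, hI0, mul_one]
  have hwm : Measurable fun x => 2 / 3 * ENNReal.ofReal (w₀ x) :=
    hw₀m.ennreal_ofReal.const_mul _
  have hae : ∀ᵐ x ∂(μ3.restrict U3), 0 < 2 / 3 * ENNReal.ofReal (w₀ x) ∧
      2 / 3 * ENNReal.ofReal (w₀ x) < ⊤ ∧
      Tendsto (fun n => sP n x / sbar n) atTop (𝓝 (2 / 3 * ENNReal.ofReal (w₀ x))) := by
    rw [ae_restrict_iff' hUm]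
    filter_upwards [hlim, hpos] with x hx hp hxU
    refine ⟨?_, ENNReal.mul_lt_top h23t.lt_top ENNReal.ofReal_lt_top, hx⟩
    exact ENNReal.mul_pos h23 (ENNReal.ofReal_pos.2 (hp hxU)).ne'
  refine ⟨fun x => 2 / 3 * ENNReal.ofReal (w₀ x), hwm, ?_, hae, ?_, ?_⟩
  · rw [hIw, hUmu]
    exact ENNReal.div_self h23 h23t
  · refine hSCH (μ3.restrict U3) (fun n x => sP n x / sbar n)
      (fun x => 2 / 3 * ENNReal.ofReal (w₀ x)) 1 (fun n => (hINT n).1.div_const _) hwm ?_ ?_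
      (hae.mono fun x hx => hx.2.2)
    · rw [hIw]
      exact h23t
    · intro n hn
      rw [hIw]
      have h1 : ∫⁻ x in U3, sP n x / sbar n ∂μ3 = (∫⁻ x in U3, sP n x ∂μ3) / sbar n := by
        simp only [div_eq_mul_inv]
        exact lintegral_mul_const _ (hINT n).1
      rw [h1]
      have h2 : ∫⁻ x in U3, sP n x ∂μ3 = 2 / 3 * sbar n := by
        rw [sbar, hUmu, ENNReal.mul_div_cancel h23 h23t]
      rw [h2, mul_div_assoc, ENNReal.div_self (hsb n hn).1.ne' (hsb n hn).2.ne, mul_one]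
  · filter_upwards [hae] with x hx
    refine ⟨(2 / 3 * ENNReal.ofReal (w₀ x)) / 2, ENNReal.half_pos hx.1.ne', ?_⟩
    have h1 := hx.2.2.eventually (lt_mem_nhds (ENNReal.half_lt_self hx.1.ne' hx.2.1.ne))
    obtain ⟨n0, hn0⟩ := eventually_atTop.1 h1
    refine ⟨max n0 1, fun n hn => ?_⟩
    have h2 := hn0 n ((le_max_left _ _).trans hn.le)
    have h3 := hsb n ((le_max_right _ _).trans hn.le)
    exact (ENNReal.lt_div_iff_mul_lt (Or.inl h3.1.ne') (Or.inl h3.2.ne)).1 h2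

end Pool.Agent.WIR.H81
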