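import Pool.Agent.WIR.StmtsE

/-!
# WIR, row POS: the limit density is positive on the units (author helper81)
-/

set_option autoImplicit false

open scoped ENNReal Topology NNReal
open Filter MeasureTheory

namespace Pool.Agent.WIR.H81

theorem pos (hMEA : MeaStmt) (hUTS : UtsStmt) (hPSF : PsfStmt) : PosStmt := by
  intro w _ _ hconv
  classical
  obtain ⟨_, hmea⟩ := hMEA
  obtain ⟨_, _, _, hunit⟩ := hUTS
  set A : Set ℤ_[3] := {x | ¬ (x ∈ U3 → 0 < w x)} with hA
  have key : ∀ ε : ℝ, 0 < ε → μ3 A ≤ ENNReal.ofReal ε := by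
    intro ε hε
    obtain ⟨c, hc, N0, hN0⟩ := hPSF ε hε
    -- the sets of finite level
    set Bd : ℕ → Set ℤ_[3] := fun N => {x | IsUnit (PadicInt.toZModPow (N + 1) x) ∧
      W (N + 1) (PadicInt.toZModPow (N + 1) x) < c} with hBd
    have hB : ∀ N, N0 ≤ N → μ3 (Bd N) ≤ ENNReal.ofReal ε := by
      intro N hN
      obtain ⟨h1, h2⟩ := hmea (N + 1) (fun y => if (IsUnit y ∧ W (N + 1) y < c) then 1 else 0)
      have h3 : (fun x : ℤ_[3] => (if (IsUnit (PadicInt.toZModPow (N + 1) x) ∧
          W (N + 1) (PadicInt.toZModPow (N + 1) x) < c) then (1 : ℝ≥0∞) else 0)) =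
          (Bd N).indicator 1 := by
        funext x
        rw [Set.indicator_apply]
        rfl
      have h4 : MeasurableSet (Bd N) := by
        have h5 : Bd N = (fun x : ℤ_[3] => (if (IsUnit (PadicInt.toZModPow (N + 1) x) ∧
          W (N + 1) (PadicInt.toZModPow (N + 1) x) < c) then (1 : ℝ≥0∞) else 0)) ⁻¹' {1} := by
          ext x
          simp only [hBd, Set.mem_ofPred_eq, Set.mem_preimage, Set.mem_singleton_iff]
          split_ifs with h6
          · simp [h6]
          · simp only [zero_ne_one, iff_false]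
            exact h6
        rw [h5]
        exact h1 (measurableSet_singleton 1)
      have h7 : μ3 (Bd N) = (∑ y : ZMod (3 ^ (N + 1)),
          if (IsUnit y ∧ W (N + 1) y < c) then (1 : ℝ≥0∞) else 0) / 3 ^ (N + 1) := by
        rw [← lintegral_indicator_one h4, ← h3]
        exact h2
      rw [h7, Finset.sum_boole]
      have h8 := hN0 N hN
      have h9 : (((Finset.univ.filter (fun a : ZMod (3 ^ (N + 1)) =>
          IsUnit a ∧ W (N + 1) a < c)).card : ℕ) : ℝ≥0∞) ≤
          ENNReal.ofReal (ε * 3 ^ (N + 1)) := by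
        rw [← ENNReal.ofReal_natCast]
        exact ENNReal.ofReal_le_ofReal h8
      refine (ENNReal.div_le_div_right h9 _).trans ?_
      rw [ENNReal.ofReal_mul hε.le]
      have h10 : ENNReal.ofReal ((3 : ℝ) ^ (N + 1)) = 3 ^ (N + 1) := by
        rw [ENNReal.ofReal_pow (by norm_num)]
        norm_num
      rw [h10, ENNReal.mul_div_cancel_right]
      · exact pow_ne_zero _ (by norm_num)
      · exact ENNReal.pow_ne_top (by norm_num)
    -- the union of the intersections
    have hsub : A ≤ᵐ[μ3] ⋃ n : ℕ, ⋂ N : ℕ, ⋂ (_ : n ≤ N), Bd N := by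
      filter_upwards [hconv] with x hx hxA
      have hxA' : ¬ (x ∈ U3 → 0 < w x) := hxA
      push Not at hxA'
      obtain ⟨hxU, hxw⟩ := hxA'
      have h1 : ∀ᶠ m in atTop, Wp m x < c := hx.eventually (gt_mem_nhds (lt_of_le_of_lt hxw hc))
      rw [eventually_atTop] at h1
      obtain ⟨n, hn⟩ := h1
      have h2 : x ∈ ⋃ n : ℕ, ⋂ N : ℕ, ⋂ (_ : n ≤ N), Bd N := by
        rw [Set.mem_iUnion]
        refine ⟨n, ?_⟩
        rw [Set.mem_iInter₂]
        intro N hN
        exact ⟨(hunit (N + 1) x (by omega)).1 hxU, hn (N + 1) (by omega)⟩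
      exact h2
    refine (measure_mono_ae hsub).trans ?_
    have hmono : Monotone (fun n : ℕ => ⋂ N : ℕ, ⋂ (_ : n ≤ N), Bd N) := by
      intro n m hnm x hx
      rw [Set.mem_iInter₂] at hx ⊢
      intro N hN
      exact hx N (hnm.trans hN)
    rw [hmono.measure_iUnion]
    refine iSup_le fun n => ?_
    have h1 : (⋂ N : ℕ, ⋂ (_ : n ≤ N), Bd N) ⊆ Bd (max n N0) := by
      intro x hx
      rw [Set.mem_iInter₂] at hx
      exact hx _ (le_max_left _ _)
    exact (measure_mono h1).trans (hB _ (le_max_right _ _))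
  have h0 : μ3 A ≤ 0 := by
    apply ENNReal.le_of_forall_pos_le_add
    intro ε hε _
    rw [zero_add]
    have := key ε (by exact_mod_cast hε)
    rwa [ENNReal.ofReal_coe_nnreal] at this
  exact le_antisymm h0 bot_le

end Pool.Agent.WIR.H81
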