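import Pool.Agent.WIR.StmtsA

/-!
# WIR, row TSY: the triangle system (author helper81)
-/

set_option autoImplicit false

namespace Pool.Agent.WIR.H81

theorem tsy (hTNZ : TnzStmt) (hTCV : TcvStmt) (hTSZ : TszStmt) (hTSB : TsbStmt)
    (hTSP : TspStmt) : TsyStmt := by
  intro N t ξ hξ ht
  refine ⟨?_, ?_, ?_⟩
  · intro j l hbk
    obtain ⟨q, hq, h1, h2, h3⟩ := hTCV N t ξ ((N - t) / 2) j l hξ (by omega) hbk
    refine ⟨q, hq, ?_⟩
    have hq1 : 1 ≤ q.1 := hq.1.1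
    have hq2 : q.1 ≤ (N - t) / 2 := hq.1.2.1
    have hnz : mm N t ξ q.1 q.2 ≠ 0 :=
      ((hTNZ N t ξ q.1 q.2 hξ hq1).1 (by omega)).1
    exact (hTSZ N q j l (mm N t ξ q.1 q.2) hnz h1 h2).1 (by rw [← h3]; exact hbk.2.2)
  · intro q hq j l hT
    have h1 := (hTSB N t ξ j l q hξ ht hq hT).2
    exact ⟨h1, h1.2.1⟩
  · intro q hq j l j' l' hT hb h1 h2 h3 h4
    exact hTSP N t ξ j l j' l' q hξ ht hq hT hb h1 h2 h3 h4

end Pool.Agent.WIR.H81
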